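import Pool.Agent.W_3e58c0b_h78.Final2

/-!
# Closed images of spaces in N(P): Sigma-spaces and related classes
-/

namespace Pool.Agent.Results.MP_3e58c0_gt.SigmaClosedImages

open Set Topology Pool.Agent.W3e58c0b

/-- Let `X` be in N(P) and let `f : X → Z` be a continuous closed surjection. Suppose that there are
compact sets `T n` in `Z`, locally finite families `N i j` (`j : J i`) of subsets of `X` and compact sets
`S i j` in `X` such that every `z : Z` is in the closure of the union of the sets `T n`, or is the
image of a point `x` which is in the closure of the union of those sets `S i j` for which `x ∈ N i j`,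
or is the image of a point `x` for which there is a compact set `C` in `Z` such that every open
`U ⊇ C` has some `N i j` with `x ∈ N i j ⊆ f ⁻¹' U`. Then `Z` is in N(P). -/
theorem result (X Z : Type) [TopologicalSpace X] [TopologicalSpace Z] (f : X → Z)
    (hf : Continuous f) (hc : IsClosedMap f) (hs : Function.Surjective f)
    (hX : T1Space X ∧ ∀ (Y : Type) [TopologicalSpace Y] [ParacompactSpace Y] [T2Space Y],
      NormalSpace (X × Y))
    (T : ℕ → Set Z) (hT : ∀ n, IsCompact (T n))
    (J : ℕ → Type) (N : (i : ℕ) → J i → Set X) (hN : ∀ i, LocallyFinite (N i))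
    (S : (i : ℕ) → J i → Set X) (hS : ∀ i j, IsCompact (S i j))
    (h : ∀ z, z ∈ closure (⋃ n, T n) ∨ ∃ x, f x = z ∧
      (x ∈ closure (⋃ i, ⋃ j, ⋃ _ : x ∈ N i j, S i j) ∨
        ∃ C : Set Z, IsCompact C ∧
          ∀ U, IsOpen U → C ⊆ U → ∃ i j, x ∈ N i j ∧ N i j ⊆ f ⁻¹' U)) :
    T1Space Z ∧ ∀ (Y : Type) [TopologicalSpace Y] [ParacompactSpace Y] [T2Space Y],
      NormalSpace (Z × Y) :=
  inNP_main hX hf hc hs T hT J N hN S hS h

end Pool.Agent.Results.MP_3e58c0_gt.SigmaClosedImages
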