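import Pool.Agent.W_3e58c0_h78.Fin1

/-!
# Continuous images of Lindelof Sigma spaces in N(P)
-/

namespace Pool.Agent.Results.MP_3e58c0_gt.SigmaContinuousImages

open Set Topology Pool.Agent.W3e58c0h78

/-- Let `X` be in N(P), let `S n` be compact subsets and `N n` arbitrary subsets of `X`, such that
every point `x` outside the closure of `⋃ n, S n` has a compact set `C` for which every open set
containing `C` contains some `N i` with `x ∈ N i`. Then every T3 space `Z` which is the image of `X`
under a continuous (not necessarily closed) map is in N(P). -/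
theorem result (X Z : Type) [TopologicalSpace X] [TopologicalSpace Z] (f : X → Z)
    (hf : Continuous f) (hs : Function.Surjective f) (hZ : T3Space Z)
    (hX : T1Space X ∧ ∀ (Y : Type) [TopologicalSpace Y] [ParacompactSpace Y] [T2Space Y],
      NormalSpace (X × Y))
    (S N : ℕ → Set X) (hS : ∀ n, IsCompact (S n))
    (hN : ∀ x, x ∈ closure (⋃ n, S n) ∨
      ∃ C : Set X, IsCompact C ∧ ∀ U, IsOpen U → C ⊆ U → ∃ i, x ∈ N i ∧ N i ⊆ U) :
    T1Space Z ∧ ∀ (Y : Type) [TopologicalSpace Y] [ParacompactSpace Y] [T2Space Y],
      NormalSpace (Z × Y) :=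
  inNP_of_continuous hX S N hS hN hf hs

end Pool.Agent.Results.MP_3e58c0_gt.SigmaContinuousImages
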